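import Pool.Agent.helper34.NTA.Spec

/-!
# Row nta:EVL (MP_4536c8_co): value of a word
-/

set_option autoImplicit false

namespace Pool.Agent.NTA

open Equiv

theorem EVL_app {Q : Type} [Group Q] (r : Fin 5 → Q) (w w' : List (ZMod 10)) : qpr r (w ++ w') = qpr r w * qpr r w' := by
  induction w with
  | nil => rw [List.nil_append]; show qpr r w' = 1 * qpr r w'; rw [one_mul]
  | cons c w ih =>
    rw [List.cons_append]
    by_cases h : KL c
    · simp only [qpr, h, if_true]
      exact ih
    · simp only [qpr, h, if_false]
      rw [ih, mul_assoc]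

theorem EVL_lst {Q : Type} [Group Q] (r : Fin 5 → Q) (w w' : List (ZMod 10)) (u : Q) :
    lst r u (w ++ w') = lst r u w ++ lst r (u * qpr r w) w' := by
  induction w generalizing u with
  | nil => rw [List.nil_append]; show lst r u w' = [] ++ lst r (u * 1) w'; rw [mul_one, List.nil_append]
  | cons c w ih =>
    rw [List.cons_append]
    by_cases h : KL c
    · simp only [lst, qpr, h, if_true]
      rw [ih, List.cons_append]
    · simp only [lst, qpr, h, if_false]
      rw [ih, mul_assoc]

theorem EVL_len {Q : Type} [Group Q] (r : Fin 5 → Q) (w : List (ZMod 10)) (u : Q) : (lst r u w).length = kn w := by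
  induction w generalizing u with
  | nil => rfl
  | cons c w ih =>
    by_cases h : KL c
    · simp only [lst, kn, h, if_true, List.length_cons]
      rw [ih, List.countP_cons_of_pos (by simpa using h)]
      rfl
    · simp only [lst, kn, h, if_false]
      rw [ih, List.countP_cons_of_neg (by simpa using h)]
      rfl

theorem EVL_val {Q L : Type} [Group Q] [Group L] {r : Fin 5 → Q} {ι : Q →* L} {k : Q × Fin 5 → L}
    {π : L →* Q} (hL : Lamp Q L r ι k π) (w : List (ZMod 10)) (u : Q) :
    ι u * (w.map (gen r ι k)).prod = ((lst r u w).map k).prod * ι (u * qpr r w) := by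
  induction w generalizing u with
  | nil => simp [lst, qpr]
  | cons c w ih =>
    by_cases h : KL c
    · have e : gen r ι k c = k (1, lam c) := by simp only [gen, h, if_true]
      have e2 : ι u * k (1, lam c) = k (u, lam c) * ι u := by
        have h2 := hL.conj u 1 (lam c)
        rw [mul_one] at h2
        rw [← h2, inv_mul_cancel_right]
      simp only [lst, qpr, h, if_true, List.map_cons, List.prod_cons]
      rw [e, ← mul_assoc, e2, mul_assoc, ih, mul_assoc]
    · have e : gen r ι k c = ι (r (lam c)) := by simp only [gen, h, if_false]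
      simp only [lst, qpr, h, if_false, List.map_cons, List.prod_cons]
      rw [e, ← mul_assoc, ← map_mul, ih, mul_assoc]

theorem EVL : EVL_stmt := by
  intro Q L _ _ r ι k π hL w
  refine ⟨EVL_val hL w, fun u w' => EVL_lst r w w' u, EVL_app r w, EVL_len r w, ?_⟩
  intro h
  have h1 := EVL_val hL w 1
  rw [h, map_one, one_mul, one_mul] at h1
  have h2 : ∀ l : List (Q × Fin 5), π (l.map k).prod = 1 := by
    intro l
    induction l with
    | nil => simp
    | cons p l ih => rw [List.map_cons, List.prod_cons, map_mul, ih, hL.pi_k, one_mul]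
  have h3 := congrArg π h1
  rw [map_one, map_mul, h2, hL.pi_iota, one_mul] at h3
  refine ⟨h3.symm, ?_⟩
  rw [← h3, map_one, mul_one] at h1
  exact h1.symm

end Pool.Agent.NTA
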