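import Pool.Agent.helper34.NTA.Spec

/-!
# Row nta:WRD (MP_4536c8_co): words of cycles
-/

set_option autoImplicit false

namespace Pool.Agent.NTA

open Equiv

theorem WRD_wt (w : List (ZMod 10)) : (w.map wt).sum = 45 * kn w + rn w := by
  induction w with
  | nil => rfl
  | cons c w ih =>
    rw [List.map_cons, List.sum_cons, ih]
    by_cases h : KL c
    · have e1 : kn (c :: w) = kn w + 1 := List.countP_cons_of_pos (by simpa using h)
      have e2 : rn (c :: w) = rn w := List.countP_cons_of_neg (by simpa using h)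
      have e3 : wt c = 45 := if_pos h
      rw [e1, e2, e3]
      ring
    · have e1 : kn (c :: w) = kn w := List.countP_cons_of_neg (by simpa using h)
      have e2 : rn (c :: w) = rn w + 1 := List.countP_cons_of_pos (by simpa using h)
      have e3 : wt c = 1 := if_neg h
      rw [e1, e2, e3]
      ring

theorem WRD_alt (g : ℕ → ZMod 10) (a b : ZMod 10) (h8 : ∀ i, g (i + 8) = g i) (hw : (List.range 8).map g = alt a b) :
    (∀ i, g (i + 2) = g i) ∧ g 0 = a ∧ g 1 = b := by
  have e : (List.range 8).map g = [g 0, g 1, g 2, g 3, g 4, g 5, g 6, g 7] := rfl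
  rw [e] at hw
  unfold alt at hw
  simp only [List.cons.injEq, and_true] at hw
  obtain ⟨h0, h1, h2, h3, h4, h5, h6, h7⟩ := hw
  refine ⟨?_, h0, h1⟩
  have key : ∀ q : ℕ, ∀ j : ℕ, j < 8 → g (j + 8 * q) = g j := by
    intro q j _
    induction q with
    | zero => rfl
    | succ q ih =>
      rw [show j + 8 * (q + 1) = (j + 8 * q) + 8 by ring, h8, ih]
  have small : ∀ j : ℕ, j < 8 → g (j + 2) = g j := by
    intro j hj
    interval_cases j
    · rw [h2, h0]
    · rw [h3, h1]
    · rw [h4, h2]
    · rw [h5, h3]
    · rw [h6, h4]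
    · rw [h7, h5]
    · rw [h6, show 6 + 2 = 0 + 8 from rfl, h8, h0]
    · rw [h7, show 7 + 2 = 1 + 8 from rfl, h8, h1]
  intro i
  have hi : i = i % 8 + 8 * (i / 8) := (Nat.mod_add_div i 8).symm
  have hlt : i % 8 < 8 := Nat.mod_lt _ (by norm_num)
  have e1 : g i = g (i % 8) := by
    rw [hi, key _ _ hlt]
    congr 1
    omega
  have e2 : g (i + 2) = g (i % 8 + 2) := by
    have h9 : ∀ q : ℕ, ∀ j : ℕ, g (j + 8 * q) = g j := by
      intro q j
      induction q with
      | zero => rfl
      | succ q ih => rw [show j + 8 * (q + 1) = (j + 8 * q) + 8 by ring, h8, ih]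
    rw [← h9 (i / 8) (i % 8 + 2)]
    congr 1
    omega
  rw [e1, e2, small _ hlt]

theorem WRD_sum (f : ℕ → ℕ) (n : ℕ) : ((List.range n).map f).sum = ∑ i ∈ Finset.range n, f i := by
  induction n with
  | zero => rfl
  | succ n ih =>
    rw [List.range_succ, List.map_append, List.sum_append, ih, Finset.sum_range_succ]
    simp

theorem WRD : WRD_stmt := by
  intro H _ s sg hG T _ τ hv lab hA e
  by_cases hsum : 225 ≤ ∑ i ∈ Finset.range (Function.minimalPeriod τ e), wt (lab ((τ ^ i) e))
  · exact Or.inr hsum
  left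
  set N := Function.minimalPeriod τ e with hN
  have hNpos : 0 < N := Function.minimalPeriod_pos_of_mem_periodicPts
    ((Function.Injective.mem_periodicPts τ.injective) e)
  have hNe : (τ ^ N) e = e := by
    rw [← Equiv.Perm.iterate_eq_pow]
    exact Function.iterate_minimalPeriod
  set g : ℕ → ZMod 10 := fun i => lab ((τ ^ i) e) with hg
  have hper : ∀ i, g (i + N) = g i := by
    intro i
    show lab ((τ ^ (i + N)) e) = lab ((τ ^ i) e)
    rw [pow_add, Equiv.Perm.mul_apply, hNe]
  have hne : ∀ i, g (i + 1) ≠ g i := by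
    intro i
    have := hA.ne ((τ ^ i) e)
    rw [← Equiv.Perm.mul_apply, ← pow_succ'] at this
    exact this
  set w : List (ZMod 10) := (List.range N).map g with hw
  have hprod : ∀ m, hv ((τ ^ m) e) = hv e * (((List.range m).map g).map s).prod := by
    intro m
    induction m with
    | zero => simp
    | succ m ih =>
      rw [List.range_succ, List.map_append, List.map_append, List.prod_append, ← mul_assoc, ← ih]
      have h1 := hA.step ((τ ^ m) e)
      rw [← Equiv.Perm.mul_apply, ← pow_succ'] at h1
      rw [h1]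
      simp [hg]
  have h1 : (w.map s).prod = 1 := by
    have h2 := hprod N
    rw [hNe] at h2
    exact (mul_eq_left.1 h2.symm)
  have h2 : w.IsChain (· ≠ ·) := by
    rw [hw, List.isChain_map, List.isChain_range]
    intro m _
    exact fun h => hne m h.symm
  have h3 : w.head? ≠ w.getLast? := by
    have e1 : w.head? = some (g 0) := by
      obtain ⟨M, hM⟩ := Nat.exists_eq_succ_of_ne_zero hNpos.ne'
      rw [hw, hM, List.range_succ_eq_map]
      rfl
    have e2 : w.getLast? = some (g (N - 1)) := by
      obtain ⟨M, hM⟩ := Nat.exists_eq_succ_of_ne_zero hNpos.ne'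
      rw [hw, hM, List.range_succ, List.map_append]
      simp
    rw [e1, e2]
    intro h
    have h4 : g 0 = g (N - 1) := Option.some.inj h
    have h5 := hne (N - 1)
    rw [Nat.sub_add_cancel hNpos, ← h4] at h5
    apply h5
    have h6 := hper 0
    rwa [zero_add] at h6
  have h4 : 45 * kn w + rn w ≤ 224 := by
    rw [← WRD_wt]
    have e1 : (w.map wt).sum = ∑ i ∈ Finset.range N, wt (g i) := by
      rw [hw, List.map_map, WRD_sum]
      rfl
    rw [e1]
    show ∑ i ∈ Finset.range N, wt (lab ((τ ^ i) e)) ≤ 224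
    omega
  obtain ⟨c, hc⟩ := hG.cls w h1 h2 h3 h4
  have hlen : N = 8 := by
    have h5 : w.length = N := by rw [hw, List.length_map, List.length_range]
    rcases hc with hc | hc
    · rw [← h5, hc]
      rfl
    · rw [← h5, hc]
      rfl
  have h8 : ∀ i, g (i + 8) = g i := by
    intro i
    have := hper i
    rwa [hlen] at this
  rw [hw, hlen] at hc
  refine ⟨hlen, ?_, ?_⟩
  · rcases hc with hc | hc
    · exact (WRD_alt g _ _ h8 hc).1
    · exact (WRD_alt g _ _ h8 hc).1
  · rcases hc with hc | hc
    · obtain ⟨-, a, b⟩ := WRD_alt g _ _ h8 hc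
      left
      have a' : lab e = c := a
      have b' : lab (τ e) = c + 1 := b
      rw [a', b']
    · obtain ⟨-, a, b⟩ := WRD_alt g _ _ h8 hc
      right
      have a' : lab e = c + 1 := a
      have b' : lab (τ e) = c := b
      rw [a', b']

end Pool.Agent.NTA
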